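import Mathlib

/-!
# Calculus of 1-forms and 2-forms in charts

Forms on a normed space `E` with values in `G` are functions `E → E →L[ℝ] G` and `E → E →L[ℝ] E →L[ℝ] G`.
-/

open scoped ContDiff Topology
open Set Filter

namespace Pool.Agent.Helper52.SX

noncomputable section

variable {E F G H : Type*} [NormedAddCommGroup E] [NormedSpace ℝ E] [NormedAddCommGroup F] [NormedSpace ℝ F]
  [NormedAddCommGroup G] [NormedSpace ℝ G] [NormedAddCommGroup H] [NormedSpace ℝ H]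

/-- pull back of the 1-form `l` under `P` -/
def pull1 (P : E → F) (l : F → F →L[ℝ] G) (u : E) : E →L[ℝ] G := (l (P u)).comp (fderiv ℝ P u)

/-- pull back of the 2-form `w` under `P` -/
def pull2 (P : E → F) (w : F → F →L[ℝ] F →L[ℝ] G) (u : E) : E →L[ℝ] E →L[ℝ] G :=
  (w (P u)).bilinearComp (fderiv ℝ P u) (fderiv ℝ P u)

/-- exterior derivative of a 1-form -/
def ext1 (l : E → E →L[ℝ] G) (u : E) : E →L[ℝ] E →L[ℝ] G := fderiv ℝ l u - (fderiv ℝ l u).flip

/-- `w` is closed at `u` -/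
def ClosedAt (w : E → E →L[ℝ] E →L[ℝ] G) (u : E) : Prop :=
  ∀ a b c, fderiv ℝ w u a b c + fderiv ℝ w u b c a + fderiv ℝ w u c a b = 0

/-- `w` is alternating at `u` -/
def AltAt (w : E → E →L[ℝ] E →L[ℝ] G) (u : E) : Prop := ∀ v, w u v v = 0

@[simp] lemma pull1_apply (P : E → F) (l : F → F →L[ℝ] G) (u v : E) :
    pull1 P l u v = l (P u) (fderiv ℝ P u v) := rfl

@[simp] lemma pull2_apply (P : E → F) (w : F → F →L[ℝ] F →L[ℝ] G) (u v v' : E) :
    pull2 P w u v v' = w (P u) (fderiv ℝ P u v) (fderiv ℝ P u v') := rfl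

@[simp] lemma ext1_apply (l : E → E →L[ℝ] G) (u v w : E) :
    ext1 l u v w = fderiv ℝ l u v w - fderiv ℝ l u w v := rfl

/-! ### Exchange of the arguments -/

/-- exchange of the two arguments -/
def flipC : (E →L[ℝ] F →L[ℝ] G) →L[ℝ] (F →L[ℝ] E →L[ℝ] G) :=
  (ContinuousLinearMap.flipₗᵢ ℝ E F G).toContinuousLinearEquiv.toContinuousLinearMap

lemma flipC_apply (f : E →L[ℝ] F →L[ℝ] G) : flipC f = f.flip := rfl

lemma contDiff_flip {n : ℕ∞ω} : ContDiff ℝ n (fun f : E →L[ℝ] F →L[ℝ] G => f.flip) :=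
  ContinuousLinearMap.contDiff (𝕜 := ℝ) (E := E →L[ℝ] F →L[ℝ] G) (F := F →L[ℝ] E →L[ℝ] G) flipC

lemma hasFDerivAt_flip (f : E →L[ℝ] F →L[ℝ] G) :
    HasFDerivAt (fun f : E →L[ℝ] F →L[ℝ] G => f.flip) flipC f :=
  ContinuousLinearMap.hasFDerivAt (𝕜 := ℝ) (E := E →L[ℝ] F →L[ℝ] G) (F := F →L[ℝ] E →L[ℝ] G) flipC

/-! ### Alternating forms -/

lemma AltAt.swap {w : E → E →L[ℝ] E →L[ℝ] G} {u : E} (h : AltAt w u) (a b : E) : w u a b = -w u b a := by
  have h1 := h (a + b)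
  simp only [map_add, add_apply, h a, h b, zero_add, add_zero] at h1
  exact eq_neg_of_add_eq_zero_right h1

lemma AltAt.add {w w' : E → E →L[ℝ] E →L[ℝ] G} {u : E} (h : AltAt w u) (h' : AltAt w' u) :
    AltAt (fun x => w x + w' x) u := fun v => by
  simp only [add_apply, h v, h' v, add_zero]

lemma AltAt.smul {w : E → E →L[ℝ] E →L[ℝ] G} {u : E} (h : AltAt w u) (c : E → ℝ) :
    AltAt (fun x => c x • w x) u := fun v => by
  simp only [smul_apply, h v, smul_zero]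

lemma altAt_ext1 (l : E → E →L[ℝ] G) (u : E) : AltAt (ext1 l) u := fun v => by
  rw [ext1_apply, sub_self]

lemma altAt_pull2 {P : E → F} {w : F → F →L[ℝ] F →L[ℝ] G} {u : E} (h : AltAt w (P u)) :
    AltAt (pull2 P w) u := fun v => by
  rw [pull2_apply]
  exact h _

/-! ### Smoothness -/

lemma contDiffAt_pull1 {P : E → F} {l : F → F →L[ℝ] G} {u : E} (hP : ContDiffAt ℝ ∞ P u)
    (hl : ContDiffAt ℝ ∞ l (P u)) : ContDiffAt ℝ ∞ (pull1 P l) u :=
  (hl.comp u hP).clm_comp (hP.fderiv_right (by simp))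

lemma contDiffAt_pull2 {P : E → F} {w : F → F →L[ℝ] F →L[ℝ] G} {u : E} (hP : ContDiffAt ℝ ∞ P u)
    (hw : ContDiffAt ℝ ∞ w (P u)) : ContDiffAt ℝ ∞ (pull2 P w) u := by
  have hD : ContDiffAt ℝ ∞ (fderiv ℝ P) u := hP.fderiv_right (by simp)
  have h1 : ContDiffAt ℝ ∞ (fun x => (w (P x)).comp (fderiv ℝ P x)) u := (hw.comp u hP).clm_comp hD
  have h2 : ContDiffAt ℝ ∞ (fun x => ((w (P x)).comp (fderiv ℝ P x)).flip) u :=
    ContDiffAt.comp u (contDiff_flip (E := E) (F := F) (G := G)).contDiffAt h1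
  have h3 : ContDiffAt ℝ ∞ (fun x => (((w (P x)).comp (fderiv ℝ P x)).flip).comp (fderiv ℝ P x)) u :=
    h2.clm_comp hD
  exact ContDiffAt.comp u (contDiff_flip (E := E) (F := E) (G := G)).contDiffAt h3

lemma contDiffAt_ext1 {l : E → E →L[ℝ] G} {u : E} (hl : ContDiffAt ℝ ∞ l u) :
    ContDiffAt ℝ ∞ (ext1 l) u := by
  have hD : ContDiffAt ℝ ∞ (fderiv ℝ l) u := hl.fderiv_right (by simp)
  exact hD.sub (ContDiffAt.comp u (contDiff_flip (E := E) (F := E) (G := G)).contDiffAt hD)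

lemma contDiffOn_pull1 {P : E → F} {l : F → F →L[ℝ] G} {U : Set E} (hU : IsOpen U) (hP : ContDiffOn ℝ ∞ P U)
    (hl : ∀ u ∈ U, ContDiffAt ℝ ∞ l (P u)) : ContDiffOn ℝ ∞ (pull1 P l) U := fun u hu =>
  (contDiffAt_pull1 (hP.contDiffAt (hU.mem_nhds hu)) (hl u hu)).contDiffWithinAt

lemma contDiffOn_pull2 {P : E → F} {w : F → F →L[ℝ] F →L[ℝ] G} {U : Set E} (hU : IsOpen U)
    (hP : ContDiffOn ℝ ∞ P U) (hw : ∀ u ∈ U, ContDiffAt ℝ ∞ w (P u)) : ContDiffOn ℝ ∞ (pull2 P w) U := fun u hu =>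
  (contDiffAt_pull2 (hP.contDiffAt (hU.mem_nhds hu)) (hw u hu)).contDiffWithinAt

lemma contDiffOn_ext1 {l : E → E →L[ℝ] G} {U : Set E} (hU : IsOpen U) (hl : ContDiffOn ℝ ∞ l U) :
    ContDiffOn ℝ ∞ (ext1 l) U := fun u hu =>
  (contDiffAt_ext1 (hl.contDiffAt (hU.mem_nhds hu))).contDiffWithinAt

/-! ### Local congruence -/

lemma pull1_congr {P Q : E → F} {l : F → F →L[ℝ] G} {u : E} (h : P =ᶠ[𝓝 u] Q) :
    pull1 P l u = pull1 Q l u := by
  unfold pull1
  rw [h.fderiv_eq, h.eq_of_nhds]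

lemma pull2_congr {P Q : E → F} {w : F → F →L[ℝ] F →L[ℝ] G} {u : E} (h : P =ᶠ[𝓝 u] Q) :
    pull2 P w u = pull2 Q w u := by
  unfold pull2
  rw [h.fderiv_eq, h.eq_of_nhds]

lemma ext1_congr {l l' : E → E →L[ℝ] G} {u : E} (h : l =ᶠ[𝓝 u] l') : ext1 l u = ext1 l' u := by
  unfold ext1
  rw [h.fderiv_eq]

lemma ClosedAt.congr {w w' : E → E →L[ℝ] E →L[ℝ] G} {u : E} (h : w =ᶠ[𝓝 u] w') (hw : ClosedAt w u) :
    ClosedAt w' u := by
  unfold ClosedAt at hw ⊢
  rwa [← h.fderiv_eq]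

lemma closedAt_congr {w w' : E → E →L[ℝ] E →L[ℝ] G} {u : E} (h : w =ᶠ[𝓝 u] w') :
    ClosedAt w u ↔ ClosedAt w' u := ⟨fun hw => hw.congr h, fun hw => hw.congr h.symm⟩

/-! ### Functoriality -/

lemma pull1_comp {f : E → F} {P : F → G} {l : G → G →L[ℝ] H} {u : E} (hf : DifferentiableAt ℝ f u)
    (hP : DifferentiableAt ℝ P (f u)) : pull1 f (pull1 P l) u = pull1 (P ∘ f) l u := by
  unfold pull1
  rw [fderiv_comp u hP hf]
  rfl

lemma pull2_comp {f : E → F} {P : F → G} {w : G → G →L[ℝ] G →L[ℝ] H} {u : E} (hf : DifferentiableAt ℝ f u)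
    (hP : DifferentiableAt ℝ P (f u)) : pull2 f (pull2 P w) u = pull2 (P ∘ f) w u := by
  unfold pull2
  rw [fderiv_comp u hP hf]
  rfl

/-- the pull backs under `P` and `Q` of a form which is invariant under the translation by `t` are compatible under
`f`, if `Q ∘ f = P + t` near `u` -/
lemma pull1_trans {f : E → F} {P : E → G} {Q : F → G} {l : G → G →L[ℝ] H} {u : E} {t : G}
    (hf : DifferentiableAt ℝ f u) (hQ : DifferentiableAt ℝ Q (f u)) (h : ∀ᶠ x in 𝓝 u, Q (f x) = P x + t)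
    (hl : l (P u + t) = l (P u)) : pull1 f (pull1 Q l) u = pull1 P l u := by
  have h0 : Q ∘ f =ᶠ[𝓝 u] fun x => P x + t := h
  rw [pull1_comp hf hQ, pull1_congr h0]
  unfold pull1
  rw [fderiv_add_const, hl]

lemma pull2_trans {f : E → F} {P : E → G} {Q : F → G} {w : G → G →L[ℝ] G →L[ℝ] H} {u : E} {t : G}
    (hf : DifferentiableAt ℝ f u) (hQ : DifferentiableAt ℝ Q (f u)) (h : ∀ᶠ x in 𝓝 u, Q (f x) = P x + t)
    (hw : w (P u + t) = w (P u)) : pull2 f (pull2 Q w) u = pull2 P w u := by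
  have h0 : Q ∘ f =ᶠ[𝓝 u] fun x => P x + t := h
  rw [pull2_comp hf hQ, pull2_congr h0]
  unfold pull2
  rw [fderiv_add_const, hw]

/-! ### Linearity -/

lemma pull1_add (P : E → F) (l l' : F → F →L[ℝ] G) (u : E) :
    pull1 P (fun x => l x + l' x) u = pull1 P l u + pull1 P l' u := by
  ext v
  simp only [pull1_apply, add_apply]

lemma pull2_add (P : E → F) (w w' : F → F →L[ℝ] F →L[ℝ] G) (u : E) :
    pull2 P (fun x => w x + w' x) u = pull2 P w u + pull2 P w' u := by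
  ext v v'
  simp only [pull2_apply, add_apply]

lemma pull1_smul (P : E → F) (c : F → ℝ) (l : F → F →L[ℝ] G) (u : E) :
    pull1 P (fun x => c x • l x) u = c (P u) • pull1 P l u := by
  ext v
  simp only [pull1_apply, smul_apply]

lemma pull2_smul (P : E → F) (c : F → ℝ) (w : F → F →L[ℝ] F →L[ℝ] G) (u : E) :
    pull2 P (fun x => c x • w x) u = c (P u) • pull2 P w u := by
  ext v v'
  simp only [pull2_apply, smul_apply]

lemma ext1_add {l l' : E → E →L[ℝ] G} {u : E} (h : DifferentiableAt ℝ l u) (h' : DifferentiableAt ℝ l' u) :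
    ext1 (fun x => l x + l' x) u = ext1 l u + ext1 l' u := by
  ext v w
  simp only [ext1_apply, add_apply, fderiv_fun_add h h']
  abel

lemma ext1_smul (c : ℝ) (l : E → E →L[ℝ] G) (u : E) : ext1 (fun x => c • l x) u = c • ext1 l u := by
  ext v w
  have h := congrFun (fderiv_const_smul_field (𝕜 := ℝ) (F := E →L[ℝ] G) (f := l) c) u
  rw [ext1_apply, show (fun x => c • l x) = c • l from rfl, h]
  simp only [smul_apply, ext1_apply, smul_sub, Pi.smul_apply]

/-- Leibniz rule -/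
lemma ext1_mul {c : E → ℝ} {l : E → E →L[ℝ] G} {u : E} (hc : DifferentiableAt ℝ c u)
    (hl : DifferentiableAt ℝ l u) (v w : E) :
    ext1 (fun x => c x • l x) u v w =
      c u • ext1 l u v w + (fderiv ℝ c u v • l u w - fderiv ℝ c u w • l u v) := by
  simp only [ext1_apply, fderiv_fun_smul hc hl, add_apply,
    smul_apply, ContinuousLinearMap.smulRight_apply, smul_sub]
  abel

lemma ClosedAt.add {w w' : E → E →L[ℝ] E →L[ℝ] G} {u : E} (hw : ClosedAt w u) (hw' : ClosedAt w' u)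
    (h : DifferentiableAt ℝ w u) (h' : DifferentiableAt ℝ w' u) : ClosedAt (fun x => w x + w' x) u := by
  intro a b c
  have h1 := hw a b c
  have h2 := hw' a b c
  rw [fderiv_fun_add (𝕜 := ℝ) (F := E →L[ℝ] E →L[ℝ] G) h h']
  simp only [add_apply]
  calc _ = (fderiv ℝ w u a b c + fderiv ℝ w u b c a + fderiv ℝ w u c a b) +
        (fderiv ℝ w' u a b c + fderiv ℝ w' u b c a + fderiv ℝ w' u c a b) := by abel
    _ = 0 := by rw [h1, h2, add_zero]

lemma ClosedAt.smul {w : E → E →L[ℝ] E →L[ℝ] G} {u : E} (hw : ClosedAt w u) (r : ℝ) :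
    ClosedAt (fun x => r • w x) u := by
  intro a b c
  have h1 := hw a b c
  have h := congrFun (fderiv_const_smul_field (𝕜 := ℝ) (F := E →L[ℝ] E →L[ℝ] G) (f := w) r) u
  rw [show (fun x => r • w x) = r • w from rfl, h]
  simp only [smul_apply, Pi.smul_apply]
  rw [← smul_add, ← smul_add, h1, smul_zero]

lemma closedAt_sum {ι : Type*} (s : Finset ι) {w : ι → E → E →L[ℝ] E →L[ℝ] G} {u : E}
    (hw : ∀ i ∈ s, ClosedAt (w i) u) (h : ∀ i ∈ s, DifferentiableAt ℝ (w i) u) :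
    ClosedAt (fun x => ∑ i ∈ s, w i x) u := by
  intro a b c
  rw [fderiv_fun_sum (𝕜 := ℝ) (F := E →L[ℝ] E →L[ℝ] G) h]
  simp only [sum_apply]
  rw [← Finset.sum_add_distrib, ← Finset.sum_add_distrib]
  exact Finset.sum_eq_zero fun i hi => hw i hi a b c

lemma closedAt_const (w : E →L[ℝ] E →L[ℝ] G) (u : E) : ClosedAt (fun _ : E => w) u := by
  intro a b c
  simp

/-! ### The exterior derivative -/

/-- `d d = 0` -/
lemma closedAt_ext1 {l : E → E →L[ℝ] G} {u : E} (hl : ContDiffAt ℝ 2 l u) : ClosedAt (ext1 l) u := by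
  have hs : IsSymmSndFDerivAt ℝ l u := hl.isSymmSndFDerivAt (by simp)
  have hD : DifferentiableAt ℝ (fderiv ℝ l) u :=
    (hl.fderiv_right (m := 1) (by norm_num)).differentiableAt (by simp)
  have h1 : HasFDerivAt (fun x => (fderiv ℝ l x).flip)
      ((flipC (E := E) (F := E) (G := G)).comp (fderiv ℝ (fderiv ℝ l) u)) u :=
    HasFDerivAt.comp (𝕜 := ℝ) (F := E →L[ℝ] E →L[ℝ] G) (G := E →L[ℝ] E →L[ℝ] G) u
      (hasFDerivAt_flip (fderiv ℝ l u)) hD.hasFDerivAt
  have hF : DifferentiableAt ℝ (fun x => (fderiv ℝ l x).flip) u := h1.differentiableAt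
  have hfl : ∀ a b c, fderiv ℝ (fun x => (fderiv ℝ l x).flip) u a b c = fderiv ℝ (fderiv ℝ l) u a c b := by
    intro a b c
    rw [h1.fderiv]
    rfl
  have hsub : ∀ a b c, fderiv ℝ (ext1 l) u a b c =
      fderiv ℝ (fderiv ℝ l) u a b c - fderiv ℝ (fderiv ℝ l) u a c b := by
    intro a b c
    have h1 : ext1 l = fun x => fderiv ℝ l x - (fderiv ℝ l x).flip := rfl
    rw [h1, fderiv_fun_sub (𝕜 := ℝ) (F := E →L[ℝ] E →L[ℝ] G) hD hF]
    simp only [sub_apply, hfl]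
  intro a b c
  rw [hsub, hsub, hsub, hs b a, hs c a, hs c b]
  abel

/-- second derivative of the components of a map -/
lemma fderiv_fderiv_apply {P : E → F} {u : E} (hP : ContDiffAt ℝ 2 P u) (a b : E) :
    fderiv ℝ (fun x => fderiv ℝ P x b) u a = fderiv ℝ (fderiv ℝ P) u a b := by
  have hD : DifferentiableAt ℝ (fderiv ℝ P) u :=
    (hP.fderiv_right (m := 1) (by norm_num)).differentiableAt (by simp)
  rw [fderiv_clm_apply hD (differentiableAt_const b)]
  simp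

lemma fderiv_pull1 {P : E → F} {l : F → F →L[ℝ] G} {u : E} (hP : ContDiffAt ℝ 2 P u)
    (hl : DifferentiableAt ℝ l (P u)) (a b : E) :
    fderiv ℝ (pull1 P l) u a b =
      fderiv ℝ l (P u) (fderiv ℝ P u a) (fderiv ℝ P u b) + l (P u) (fderiv ℝ (fderiv ℝ P) u a b) := by
  have hD : DifferentiableAt ℝ (fderiv ℝ P) u :=
    (hP.fderiv_right (m := 1) (by norm_num)).differentiableAt (by simp)
  have hP1 : DifferentiableAt ℝ P u := hP.differentiableAt (by simp)
  have hc : HasFDerivAt (fun x => l (P x)) ((fderiv ℝ l (P u)).comp (fderiv ℝ P u)) u :=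
    hl.hasFDerivAt.comp u hP1.hasFDerivAt
  have h1 : HasFDerivAt (pull1 P l) _ u := hc.clm_comp hD.hasFDerivAt
  rw [h1.fderiv]
  simp [add_comm]

lemma fderiv_pull2 {P : E → F} {w : F → F →L[ℝ] F →L[ℝ] G} {u : E} (hP : ContDiffAt ℝ 2 P u)
    (hw : DifferentiableAt ℝ w (P u)) (a b c : E) :
    fderiv ℝ (pull2 P w) u a b c =
      fderiv ℝ w (P u) (fderiv ℝ P u a) (fderiv ℝ P u b) (fderiv ℝ P u c)
        + w (P u) (fderiv ℝ (fderiv ℝ P) u a b) (fderiv ℝ P u c)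
        + w (P u) (fderiv ℝ P u b) (fderiv ℝ (fderiv ℝ P) u a c) := by
  have hD : DifferentiableAt ℝ (fderiv ℝ P) u :=
    (hP.fderiv_right (m := 1) (by norm_num)).differentiableAt (by simp)
  have hP1 : DifferentiableAt ℝ P u := hP.differentiableAt (by simp)
  have hc : HasFDerivAt (fun x => w (P x)) ((fderiv ℝ w (P u)).comp (fderiv ℝ P u)) u :=
    HasFDerivAt.comp (𝕜 := ℝ) (F := F) (G := F →L[ℝ] F →L[ℝ] G) u hw.hasFDerivAt hP1.hasFDerivAt
  have hdiff : DifferentiableAt ℝ (pull2 P w) u := by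
    have h1 : DifferentiableAt ℝ (fun x => (w (P x)).comp (fderiv ℝ P x)) u :=
      hc.differentiableAt.clm_comp hD
    have h2 : DifferentiableAt ℝ (fun x => ((w (P x)).comp (fderiv ℝ P x)).flip) u :=
      DifferentiableAt.comp (𝕜 := ℝ) (F := E →L[ℝ] F →L[ℝ] G) (G := F →L[ℝ] E →L[ℝ] G) u
        (hasFDerivAt_flip _).differentiableAt h1
    have h3 : DifferentiableAt ℝ
        (fun x => (((w (P x)).comp (fderiv ℝ P x)).flip).comp (fderiv ℝ P x)) u := h2.clm_comp hD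
    exact DifferentiableAt.comp (𝕜 := ℝ) (F := E →L[ℝ] E →L[ℝ] G) (G := E →L[ℝ] E →L[ℝ] G) u
      (hasFDerivAt_flip _).differentiableAt h3
  have e1 : fderiv ℝ (fun x => pull2 P w x b c) u a = fderiv ℝ (pull2 P w) u a b c := by
    have h1 : DifferentiableAt ℝ (fun x => pull2 P w x b) u := hdiff.clm_apply (differentiableAt_const b)
    rw [fderiv_clm_apply h1 (differentiableAt_const c)]
    simp only [fderiv_fun_const, Pi.zero_apply, ContinuousLinearMap.comp_zero, zero_add,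
      ContinuousLinearMap.flip_apply]
    rw [fderiv_clm_apply hdiff (differentiableAt_const b)]
    simp
  rw [← e1]
  have hb : DifferentiableAt ℝ (fun x => fderiv ℝ P x b) u := hD.clm_apply (differentiableAt_const b)
  have hcc : DifferentiableAt ℝ (fun x => fderiv ℝ P x c) u := hD.clm_apply (differentiableAt_const c)
  have h4 : DifferentiableAt ℝ (fun x => w (P x) (fderiv ℝ P x b)) u := hc.differentiableAt.clm_apply hb
  have e2 : fderiv ℝ (fun x => pull2 P w x b c) u =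
      fderiv ℝ (fun x => w (P x) (fderiv ℝ P x b) (fderiv ℝ P x c)) u := rfl
  rw [e2, fderiv_clm_apply h4 hcc, fderiv_clm_apply hc.differentiableAt hb, hc.fderiv]
  simp only [add_apply, ContinuousLinearMap.comp_apply,
    ContinuousLinearMap.flip_apply, fderiv_fderiv_apply hP]
  abel

/-- the pull back of a closed 2-form is closed -/
lemma closedAt_pull2 {P : E → F} {w : F → F →L[ℝ] F →L[ℝ] G} {u : E} (hP : ContDiffAt ℝ 2 P u)
    (hw : DifferentiableAt ℝ w (P u)) (ha : AltAt w (P u)) (hc : ClosedAt w (P u)) :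
    ClosedAt (pull2 P w) u := by
  have hs : IsSymmSndFDerivAt ℝ P u := hP.isSymmSndFDerivAt (by simp)
  intro a b c
  rw [fderiv_pull2 hP hw, fderiv_pull2 hP hw, fderiv_pull2 hP hw]
  have h1 := hc (fderiv ℝ P u a) (fderiv ℝ P u b) (fderiv ℝ P u c)
  have h2 := ha.swap (fderiv ℝ (fderiv ℝ P) u a b) (fderiv ℝ P u c)
  have h3 := ha.swap (fderiv ℝ (fderiv ℝ P) u b c) (fderiv ℝ P u a)
  have h4 := ha.swap (fderiv ℝ (fderiv ℝ P) u c a) (fderiv ℝ P u b)
  rw [h2, h3, h4, hs b a, hs c b, hs a c]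
  calc _ = fderiv ℝ w (P u) (fderiv ℝ P u a) (fderiv ℝ P u b) (fderiv ℝ P u c)
        + fderiv ℝ w (P u) (fderiv ℝ P u b) (fderiv ℝ P u c) (fderiv ℝ P u a)
        + fderiv ℝ w (P u) (fderiv ℝ P u c) (fderiv ℝ P u a) (fderiv ℝ P u b) := by abel
    _ = 0 := h1

/-- `d` commutes with pull backs -/
lemma ext1_pull1 {P : E → F} {l : F → F →L[ℝ] G} {u : E} (hP : ContDiffAt ℝ 2 P u)
    (hl : DifferentiableAt ℝ l (P u)) : ext1 (pull1 P l) u = pull2 P (ext1 l) u := by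
  have hs : IsSymmSndFDerivAt ℝ P u := hP.isSymmSndFDerivAt (by simp)
  ext v w
  rw [ext1_apply, fderiv_pull1 hP hl, fderiv_pull1 hP hl, pull2_apply, ext1_apply, hs v w]
  abel

/-- the exterior derivatives of two 1-forms which are related by `f` are related by `f` -/
lemma ext1_trans {f : E → F} {l : E → E →L[ℝ] G} {l' : F → F →L[ℝ] G} {u : E} (hf : ContDiffAt ℝ 2 f u)
    (hl : DifferentiableAt ℝ l' (f u)) (h : ∀ᶠ x in 𝓝 u, l x = pull1 f l' x) :
    ext1 l u = pull2 f (ext1 l') u := by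
  rw [← ext1_pull1 hf hl]
  exact ext1_congr h

/-- the differential of a function is a closed 1-form -/
lemma ext1_fderiv {g : E → G} {u : E} (hg : ContDiffAt ℝ 2 g u) : ext1 (fderiv ℝ g) u = 0 := by
  have hs : IsSymmSndFDerivAt ℝ g u := hg.isSymmSndFDerivAt (by simp)
  ext v w
  rw [ext1_apply, hs v w, sub_self]
  rfl

end

end Pool.Agent.Helper52.SX
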