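import Pool.Agent.Helper52.SX.Forms

/-!
# Identities between tensors on a dense set extend by continuity
-/

set_option linter.unusedSectionVars false

open scoped ContDiff Topology
open Set Filter

namespace Pool.Agent.Helper52.SX

noncomputable section

variable {E F G : Type*} [NormedAddCommGroup E] [NormedSpace ℝ E] [NormedAddCommGroup F] [NormedSpace ℝ F]
  [NormedAddCommGroup G] [NormedSpace ℝ G]

/-- `S` is dense in the set `U` -/
def DenseIn (S U : Set E) : Prop := U ⊆ closure (S ∩ U)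

lemma DenseIn.mono {S S' U : Set E} (h : DenseIn S U) (hS : S ∩ U ⊆ S') : DenseIn S' U := fun _ hx =>
  closure_mono (subset_inter hS inter_subset_right) (h hx)

/-- a set which is dense in `U` is dense in every open subset of `U` -/
lemma DenseIn.restrict {S U U' : Set E} (h : DenseIn S U) (hU' : IsOpen U') (hs : U' ⊆ U) : DenseIn S U' := by
  intro x hx
  rw [mem_closure_iff]
  intro o ho hxo
  obtain ⟨y, hy, hyS⟩ := mem_closure_iff.1 (h (hs hx)) (o ∩ U') (ho.inter hU') ⟨hxo, hx⟩
  exact ⟨y, hy.1, hyS.1, hy.2⟩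

lemma denseIn_inter {S T U : Set E} (hS : DenseIn S U) (hT : DenseIn T U) (hSo : IsOpen (S ∩ U)) :
    DenseIn (S ∩ T) U := by
  intro x hx
  rw [mem_closure_iff]
  intro o ho hxo
  obtain ⟨y, hyo, hyS⟩ := mem_closure_iff.1 (hS hx) o ho hxo
  obtain ⟨z, hz, hzT⟩ := mem_closure_iff.1 (hT hyS.2) (o ∩ (S ∩ U)) (ho.inter hSo) ⟨hyo, hyS⟩
  exact ⟨z, hz.1, ⟨hz.2.1, hzT.1⟩, hzT.2⟩

/-- the complement of a set with empty interior is dense -/
lemma denseIn_compl {A U : Set E} (hU : IsOpen U) (h : interior A = ∅) : DenseIn Aᶜ U := by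
  have h1 : closure Aᶜ = univ := by rw [closure_compl, h, compl_empty]
  have h2 : DenseIn Aᶜ (univ : Set E) := fun x _ => by
    rw [inter_univ, h1]
    exact mem_univ x
  exact h2.restrict hU (subset_univ U)

theorem eqOn_of_denseIn {W : Type*} [TopologicalSpace W] [T2Space W] {f g : E → W} {S U : Set E}
    (hS : DenseIn S U) (hf : ContinuousOn f U) (hg : ContinuousOn g U) (h : ∀ x ∈ U, x ∈ S → f x = g x) :
    ∀ x ∈ U, f x = g x := by
  have h1 : EqOn f g (S ∩ U) := fun x hx => h x hx.2 hx.1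
  exact h1.of_subset_closure hf hg inter_subset_right hS

/-- a weak inequality extends by continuity -/
theorem le_of_denseIn {f g : E → ℝ} {S U : Set E} (hS : DenseIn S U) (hf : ContinuousOn f U)
    (hg : ContinuousOn g U) (h : ∀ x ∈ U, x ∈ S → f x ≤ g x) : ∀ x ∈ U, f x ≤ g x := by
  have h1 : ∀ x ∈ U, min (f x) (g x) = f x :=
    eqOn_of_denseIn hS (hf.inf hg) hf fun x hx hxS => min_eq_left (h x hx hxS)
  exact fun x hx => min_eq_left_iff.1 (h1 x hx)

/-- closedness extends by continuity -/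
theorem closedAt_of_denseIn {w : E → E →L[ℝ] E →L[ℝ] G} {S U : Set E} (hU : IsOpen U)
    (hw : ContDiffOn ℝ ∞ w U) (hS : DenseIn S U) (h : ∀ x ∈ U, x ∈ S → ClosedAt w x) :
    ∀ x ∈ U, ClosedAt w x := by
  have hD : ContinuousOn (fderiv ℝ w) U := hw.continuousOn_fderiv_of_isOpen hU (by simp)
  have hc : ∀ a b c, ContinuousOn (fun x => fderiv ℝ w x a b c) U := fun a b c =>
    ((hD.clm_apply continuousOn_const).clm_apply continuousOn_const).clm_apply continuousOn_const
  intro x hx a b c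
  exact eqOn_of_denseIn hS (((hc a b c).add (hc b c a)).add (hc c a b)) continuousOn_const
    (fun y hy hyS => h y hy hyS a b c) x hx

/-- `J ^ 2 = -1` extends by continuity -/
theorem sq_of_denseIn {J : E → E →L[ℝ] E} {S U : Set E} (hJ : ContinuousOn J U) (hS : DenseIn S U)
    (h : ∀ x ∈ U, x ∈ S → ∀ v, J x (J x v) = -v) : ∀ x ∈ U, ∀ v, J x (J x v) = -v := by
  intro x hx v
  exact eqOn_of_denseIn hS (hJ.clm_apply (hJ.clm_apply continuousOn_const)) continuousOn_const
    (fun y hy hyS => h y hy hyS v) x hx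

/-- compatibility of 1-forms extends by continuity -/
theorem compat1_of_denseIn {f : E → F} {l : E → E →L[ℝ] G} {l' : F → F →L[ℝ] G} {S O : Set E} {O' : Set F}
    (hO : IsOpen O) (hf : ContDiffOn ℝ ∞ f O) (hfO : MapsTo f O O') (hl : ContinuousOn l O)
    (hl' : ContinuousOn l' O') (hS : DenseIn S O)
    (h : ∀ x ∈ O, x ∈ S → ∀ v, l x v = l' (f x) (fderiv ℝ f x v)) :
    ∀ x ∈ O, ∀ v, l x v = l' (f x) (fderiv ℝ f x v) := by
  have hD : ContinuousOn (fderiv ℝ f) O := hf.continuousOn_fderiv_of_isOpen hO (by simp)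
  intro x hx v
  exact eqOn_of_denseIn hS (hl.clm_apply continuousOn_const)
    ((hl'.comp hf.continuousOn hfO).clm_apply (hD.clm_apply continuousOn_const))
    (fun y hy hyS => h y hy hyS v) x hx

/-- compatibility of 2-forms extends by continuity -/
theorem compat2_of_denseIn {f : E → F} {w : E → E →L[ℝ] E →L[ℝ] G} {w' : F → F →L[ℝ] F →L[ℝ] G}
    {S O : Set E} {O' : Set F} (hO : IsOpen O) (hf : ContDiffOn ℝ ∞ f O) (hfO : MapsTo f O O')
    (hw : ContinuousOn w O) (hw' : ContinuousOn w' O') (hS : DenseIn S O)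
    (h : ∀ x ∈ O, x ∈ S → ∀ v v', w x v v' = w' (f x) (fderiv ℝ f x v) (fderiv ℝ f x v')) :
    ∀ x ∈ O, ∀ v v', w x v v' = w' (f x) (fderiv ℝ f x v) (fderiv ℝ f x v') := by
  have hD : ContinuousOn (fderiv ℝ f) O := hf.continuousOn_fderiv_of_isOpen hO (by simp)
  intro x hx v v'
  exact eqOn_of_denseIn hS ((hw.clm_apply continuousOn_const).clm_apply continuousOn_const)
    (((hw'.comp hf.continuousOn hfO).clm_apply (hD.clm_apply continuousOn_const)).clm_apply
      (hD.clm_apply continuousOn_const))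
    (fun y hy hyS => h y hy hyS v v') x hx

/-- compatibility of endomorphism fields extends by continuity -/
theorem compatJ_of_denseIn {f : E → F} {J : E → E →L[ℝ] E} {J' : F → F →L[ℝ] F} {S O : Set E} {O' : Set F}
    (hO : IsOpen O) (hf : ContDiffOn ℝ ∞ f O) (hfO : MapsTo f O O') (hJ : ContinuousOn J O)
    (hJ' : ContinuousOn J' O') (hS : DenseIn S O)
    (h : ∀ x ∈ O, x ∈ S → ∀ v, J' (f x) (fderiv ℝ f x v) = fderiv ℝ f x (J x v)) :
    ∀ x ∈ O, ∀ v, J' (f x) (fderiv ℝ f x v) = fderiv ℝ f x (J x v) := by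
  have hD : ContinuousOn (fderiv ℝ f) O := hf.continuousOn_fderiv_of_isOpen hO (by simp)
  intro x hx v
  exact eqOn_of_denseIn hS
    ((hJ'.comp hf.continuousOn hfO).clm_apply (hD.clm_apply continuousOn_const))
    (hD.clm_apply (hJ.clm_apply continuousOn_const))
    (fun y hy hyS => h y hy hyS v) x hx

/-- the zero set of a function with nonvanishing derivative at its zeros has empty interior -/
lemma interior_zero_empty {f : E → G} {U : Set E} (h : ∀ x ∈ U, f x = 0 → fderiv ℝ f x ≠ 0) :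
    interior ({x | f x = 0} ∩ U) = ∅ := by
  rw [eq_empty_iff_forall_notMem]
  intro x hx
  have h1 : f =ᶠ[𝓝 x] fun _ => (0 : G) :=
    Filter.mem_of_superset (mem_interior_iff_mem_nhds.1 hx) fun y hy => hy.1
  have h2 := interior_subset hx
  refine h x h2.2 h2.1 ?_
  rw [h1.fderiv_eq]
  simp

end

end Pool.Agent.Helper52.SX
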